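import Pool.Agent.Helper32.YT.StF
import Pool.Agent.Helper35.YM.StG
import Pool.Agent.Helper35.PI.All
import Pool.Agent.Helper51.FN.M_POW
import Pool.Agent.Helper38.FN.M_K8

/-!
# Project YM, module SL2: good slices and the certificate give smallness in measure
-/

set_option autoImplicit false

namespace Helper32.YT.SL2F

open Helper35.PI Helper35.PI2 Helper32.CL Helper35.YM Helper32.YT
open scoped ContDiff Manifold Topology ENNReal BigOperators
open MeasureTheory Set Filter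

/-- the lower bound for the part of `A` orthogonal to `H` -/
private theorem key_i0 {X Y Z W c c₀ ε τ : ℝ} (hc : 0 < c) (hc0 : c₀ < c) (hε : 0 < ε)
    (hτ : 0 < τ) (hY : 0 < Y) (hX : X ≤ c₀ * Y) (hW : W ≤ X ^ 2)
    (hQ : ε * (c * Y - X) ^ 2 ≤ W - X ^ 2 + 2 * c * (X * Y - Z)) (hεY : ε ≤ τ * Y) :
    (ε ^ 2 * (c - c₀) ^ 2 / (2 * c)) ^ 2 / τ ^ 2 ≤ (X - Z / Y) ^ 2 := by
  have h0 : 0 < c - c₀ := by linarith
  have h1 : (c - c₀) * Y ≤ c * Y - X := by linarith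
  have h2 : ((c - c₀) * Y) ^ 2 ≤ (c * Y - X) ^ 2 := pow_le_pow_left₀ (by positivity) h1 2
  have h3 : ε * ((c - c₀) * Y) ^ 2 ≤ 2 * c * (X * Y - Z) := by
    have := mul_le_mul_of_nonneg_left h2 hε.le
    linarith
  have h4 : X - Z / Y = (X * Y - Z) / Y := by
    field_simp
  have h5 : ε ^ 2 * (c - c₀) ^ 2 / (2 * c) / τ ≤ X - Z / Y := by
    rw [h4, div_div, div_le_div_iff₀ (by positivity) hY]
    have h6 : ε * (ε * ((c - c₀) ^ 2 * Y)) ≤ (τ * Y) * (ε * ((c - c₀) ^ 2 * Y)) :=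
      mul_le_mul_of_nonneg_right hεY (by positivity)
    have h7 : τ * (ε * ((c - c₀) * Y) ^ 2) ≤ τ * (2 * c * (X * Y - Z)) :=
      mul_le_mul_of_nonneg_left h3 hτ.le
    nlinarith [h6, h7]
  have h8 : 0 ≤ ε ^ 2 * (c - c₀) ^ 2 / (2 * c) / τ := by positivity
  have h9 := pow_le_pow_left₀ h8 h5 2
  rwa [div_pow] at h9

/-- the weights on the set -/
private theorem key_m {x R R' Rc τ : ℝ} (hτ : 0 < τ) (hR' : 1 ≤ R') (hRR : R ≤ R')
    (hRc : 4 * R' ≤ Rc ^ 2) (hx : x ≤ R * τ) :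
    1 / 4 * Real.exp (-(R' / 4)) ≤
      (max 0 (1 - x / (Rc ^ 2 * τ))) ^ 4 * Real.exp (-(x / (4 * τ))) := by
  have hRcp : 0 < Rc ^ 2 := by linarith
  have h1 : x ≤ R' * τ := hx.trans (mul_le_mul_of_nonneg_right hRR hτ.le)
  have h2 : x / (Rc ^ 2 * τ) ≤ 1 / 4 := by
    rw [div_le_div_iff₀ (by positivity) (by norm_num)]
    nlinarith [mul_le_mul_of_nonneg_right hRc hτ.le]
  have h3 : (3 / 4 : ℝ) ≤ max 0 (1 - x / (Rc ^ 2 * τ)) := le_max_of_le_right (by linarith)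
  have h4 : (1 / 4 : ℝ) ≤ (max 0 (1 - x / (Rc ^ 2 * τ))) ^ 4 := by
    have := pow_le_pow_left₀ (by norm_num : (0 : ℝ) ≤ 3 / 4) h3 4
    norm_num at this ⊢
    linarith
  have h5 : Real.exp (-(R' / 4)) ≤ Real.exp (-(x / (4 * τ))) := by
    apply Real.exp_le_exp.2
    rw [neg_le_neg_iff, div_le_div_iff₀ (by positivity) (by norm_num)]
    linarith
  exact mul_le_mul h4 h5 (Real.exp_pos _).le (by positivity)

private theorem cst_slice {M : Type} [TopologicalSpace M] {V : Type} [TopologicalSpace V]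
    {g : M → ℝ → V} (h : CST g) {t : ℝ} (ht : t < 0) : Continuous (fun q => g q t) := by
  have h2c : Continuous (fun q : M => (q, t)) := by fun_prop
  have h3 : Continuous ((fun z : M × ℝ => g z.1 z.2) ∘ fun q : M => (q, t)) :=
    ContinuousOn.comp_continuous h h2c (fun q => ⟨mem_univ q, ht⟩)
  exact h3

/-- from a bound of the lower integral to a bound of the integral -/
private theorem int_le {M : Type} [MeasurableSpace M] {μ : Measure M} {f : M → ℝ}
    (hm : AEStronglyMeasurable f μ) (h0 : ∀ q, 0 ≤ f q) {b : ℝ} (hb : 0 ≤ b)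
    (h : ∫⁻ q, ENNReal.ofReal (f q) ∂μ ≤ ENNReal.ofReal b) : ∫ q, f q ∂μ ≤ b := by
  rw [integral_eq_lintegral_of_nonneg_ae (Eventually.of_forall h0) hm]
  exact ENNReal.toReal_le_of_le_ofReal hb h

/-- integration of the pointwise inequality -/
private theorem int_comb {M : Type} [MeasurableSpace M] {μ : Measure M} {f0 f1 f2 f3 : M → ℝ}
    (h0 : Integrable f0 μ) (h1 : Integrable f1 μ) (h2 : Integrable f2 μ) (h3 : Integrable f3 μ)
    (η a b : ℝ) (h : ∀ q, η * f0 q ≤ f1 q + a * f2 q + b * f3 q) (hz : ∫ q, f1 q ∂μ = 0) :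
    η * ∫ q, f0 q ∂μ ≤ a * (∫ q, f2 q ∂μ) + b * ∫ q, f3 q ∂μ := by
  have e1 : ∫ q, (f1 q + a * f2 q + b * f3 q) ∂μ =
      a * (∫ q, f2 q ∂μ) + b * ∫ q, f3 q ∂μ := by
    have hA : Integrable (fun q => f1 q + a * f2 q) μ := h1.add (h2.const_mul a)
    have hB : Integrable (fun q => b * f3 q) μ := h3.const_mul b
    rw [integral_add hA hB, integral_add h1 (h2.const_mul a), hz, zero_add, integral_const_mul,
      integral_const_mul]
  have e2 : ∫ q, η * f0 q ∂μ ≤ ∫ q, (f1 q + a * f2 q + b * f3 q) ∂μ :=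
    integral_mono (h0.const_mul η) ((h1.add (h2.const_mul a)).add (h3.const_mul b)) h
  rw [integral_const_mul, e1] at e2
  exact e2

theorem hSL2F (hMU : StMU) (hFV : StFV) (hMO : StMO) (hSF : StSF) (hWD : StWD) (_hGR : StGR)
    (hGB2 : StGB2) (hSL1 : StSL1F) : StSL2F := by
  intro n N hn M _ _ _ _ _ _ _ F c χ CA hS c₀ hc₀ hC hpin hGT
  obtain ⟨η, C₁, hη, hC₁, hSL⟩ := hSL1 n N hn M F hS.mcf c₀ hpin hC
  obtain ⟨C, hCpos, hG⟩ := hGT
  obtain ⟨C', hC', hM2⟩ := (hMO n N hn M F c χ CA hS).2 2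
  intro R ε T₁ hε
  have hcn : (0 : ℝ) < 3 / ((n : ℝ) + 2) := by positivity
  generalize hcc : (3 : ℝ) / ((n : ℝ) + 2) = cc at hc₀ hcn ⊢
  have hcd : 0 < cc - c₀ := by linarith
  obtain ⟨R', hR'1, hRR⟩ : ∃ R' : ℝ, 1 ≤ R' ∧ R ≤ R' := ⟨max R 1, le_max_right _ _, le_max_left _ _⟩
  obtain ⟨κ, hκ⟩ : ∃ κ : ℝ, κ = ε ^ 2 * (cc - c₀) ^ 2 / (2 * cc) := ⟨_, rfl⟩
  have hκpos : 0 < κ := by rw [hκ]; positivity
  obtain ⟨A0, hA0⟩ : ∃ A0 : ℝ, A0 = 1 / 4 * Real.exp (-(R' / 4)) * κ ^ 2 := ⟨_, rfl⟩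
  have hA0pos : 0 < A0 := by rw [hA0]; positivity
  obtain ⟨δ, hδ⟩ : ∃ δ : ℝ, δ = ε * η * A0 := ⟨_, rfl⟩
  have hδpos : 0 < δ := by rw [hδ]; positivity
  have hSpos : 0 < C + C' := by positivity
  obtain ⟨Rc, hRc1, hRc2, hRc3⟩ : ∃ Rc : ℝ, 1 ≤ Rc ∧ 4 * R' ≤ Rc ^ 2 ∧
      C₁ / Rc * (C + C') ≤ δ / 3 := by
    refine ⟨max (2 * R') (3 * C₁ * (C + C') / δ), le_max_of_le_left (by linarith), ?_, ?_⟩
    · have h1 : 2 * R' ≤ max (2 * R') (3 * C₁ * (C + C') / δ) := le_max_left _ _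
      have h2 := pow_le_pow_left₀ (by linarith : (0 : ℝ) ≤ 2 * R') h1 2
      nlinarith
    · have h1 : 3 * C₁ * (C + C') / δ ≤ max (2 * R') (3 * C₁ * (C + C') / δ) := le_max_right _ _
      have h2 : 0 < max (2 * R') (3 * C₁ * (C + C') / δ) := lt_max_of_lt_left (by linarith)
      rw [div_le_iff₀ hδpos] at h1
      rw [div_mul_eq_mul_div, div_le_div_iff₀ h2 (by norm_num)]
      linarith
  have hRcpos : 0 < Rc := by linarith
  obtain ⟨CR, hCR, hSL'⟩ := hSL Rc hRc1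
  obtain ⟨lam, hlam, hlam2⟩ : ∃ lam : ℝ, 0 < lam ∧ lam * (C + C') ≤ δ / 3 := by
    refine ⟨δ / (3 * (C + C')), by positivity, le_of_eq ?_⟩
    field_simp
  obtain ⟨ε', hε', hε'2⟩ : ∃ ε' : ℝ, 0 < ε' ∧ CR * (1 + 1 / lam) * ε' ≤ δ / 3 := by
    have hp : 0 < (CR + 1) * (1 + 1 / lam) := by positivity
    refine ⟨δ / (3 * ((CR + 1) * (1 + 1 / lam))), by positivity, ?_⟩
    have h1 : CR * (1 + 1 / lam) ≤ (CR + 1) * (1 + 1 / lam) :=
      mul_le_mul_of_nonneg_right (by linarith) (by positivity)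
    calc CR * (1 + 1 / lam) * (δ / (3 * ((CR + 1) * (1 + 1 / lam))))
        ≤ (CR + 1) * (1 + 1 / lam) * (δ / (3 * ((CR + 1) * (1 + 1 / lam)))) :=
          mul_le_mul_of_nonneg_right h1 (by positivity)
      _ = δ / 3 := by
          generalize (CR + 1) * (1 + 1 / lam) = u at hp
          field_simp
  obtain ⟨t, ht1, ht0, hI1, hI2⟩ := hG Rc ε' T₁ hRc1 hε'
  have hτ : 0 < -t := by linarith
  refine ⟨-t, by linarith, hτ, ?_⟩
  simp only [neg_neg]
  obtain ⟨Z, hZs, hZ0, hZ⟩ := hSL' t ht0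
  obtain ⟨hdc, hd0, hdi⟩ := hFV n N hn M F c χ CA hS t ht0 (Rc * √(-t)) Z hZs hZ0
  have hint := (hMU n N hn M F c χ CA hS t ht0).2.2.2.2.1 (Rc * √(-t))
  obtain ⟨_, _, cY, cA, cx, cG, _, hpt⟩ := hSF n N hn M F hS.mcf
  obtain ⟨cw, cg1, _, _, hwd⟩ := hWD n N M F hS.mcf
  have hwd' := (hwd t ht0).2.2
  obtain ⟨cg2, hg2⟩ := hGB2 n N M F hS.mcf
  obtain ⟨_, cH, _, cZ⟩ := Helper35.PI.All.tI4 n N M F hS.mcf
  have hcY := cst_slice cY ht0
  have hcA := cst_slice cA ht0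
  have hcx := cst_slice cx ht0
  have hcG := cst_slice cG ht0
  have hcw := cst_slice cw ht0
  have hcg1 := cst_slice cg1 ht0
  have hcg2 := cst_slice cg2 ht0
  have hcH := cst_slice (g := fun q t => HH (n := n) F q t) cH ht0
  have hcZ := cst_slice (g := fun q t => ZF (n := n) F q t) cZ ht0
  have hYpos : ∀ q, 0 < yF n F q t := by
    intro q
    have h := (hpin q t ht0).1
    unfold yF
    exact pow_pos (norm_pos_iff.2 h) 2
  have hcm : Continuous (fun q => mc Rc F q t) := by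
    unfold mc
    exact continuous_const.max (continuous_const.sub (hcx.div_const _))
  have hm0 : ∀ q, 0 ≤ mc Rc F q t := fun q => le_max_left _ _
  have hm1 : ∀ q, mc Rc F q t ≤ 1 := by
    intro q
    unfold mc
    refine max_le (by norm_num) ?_
    have : 0 ≤ ‖F q t‖ ^ 2 / (Rc ^ 2 * (-t)) := by positivity
    linarith
  have hmz : ∀ q, Rc * √(-t) < ‖F q t‖ → mc Rc F q t = 0 := by
    intro q hq
    unfold mc
    refine max_eq_left ?_
    have h1 : (Rc * √(-t)) ^ 2 < ‖F q t‖ ^ 2 := pow_lt_pow_left₀ hq (by positivity) two_ne_zero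
    rw [mul_pow, Real.sq_sqrt hτ.le] at h1
    have h2 : 1 ≤ ‖F q t‖ ^ 2 / (Rc ^ 2 * (-t)) := by
      rw [le_div_iff₀ (by positivity)]
      linarith
    linarith
  -- the functions
  have hci : Continuous (fun q => i0F n F q t) := by
    unfold i0F
    exact (hcA.sub (hcZ.div hcY (fun q => (hYpos q).ne'))).pow 2
  have hi0 : ∀ q, 0 ≤ i0F n F q t := fun q => sq_nonneg _
  have hf0c : Continuous (fun q => mc Rc F q t ^ 4 * (ggF F q t * i0F n F q t)) :=
    (hcm.pow 4).mul (hcG.mul hci)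
  have hf0i := (hint (fun q => mc Rc F q t ^ 4 * (ggF F q t * i0F n F q t)) hf0c (fun q hq => by
    rw [hmz q hq]; ring)).2
  have hf0n : ∀ q, 0 ≤ mc Rc F q t ^ 4 * (ggF F q t * i0F n F q t) := fun q =>
    mul_nonneg (pow_nonneg (hm0 q) 4) (mul_nonneg (hpt q t ht0).2.2.2.2.2.2.2.2.1.le (hi0 q))
  have hf1c : Continuous (fun q => dvg (n := n) F Z q t + inner ℝ (HH (n := n) F q t) (Z q)) :=
    hdc.add (hcH.inner hZs.continuous)
  have hf1i := (hint (fun q => dvg (n := n) F Z q t + inner ℝ (HH (n := n) F q t) (Z q)) hf1c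
    (fun q hq => by rw [hd0 q hq, hZ0 q hq, inner_zero_right, add_zero])).2
  have hf2c : Continuous (fun q => mc Rc F q t ^ 2 * (ggF F q t * (g2F n F q t
      + AA (n := n) F q t ^ 2 + (1 + ‖F q t‖ ^ 2 / (-t)) ^ 2 / t ^ 2))) :=
    (hcm.pow 2).mul (hcG.mul ((hcg2.add (hcA.pow 2)).add
      (((continuous_const.add (hcx.div_const _)).pow 2).div_const _)))
  have hf2i := (hint (fun q => mc Rc F q t ^ 2 * (ggF F q t * (g2F n F q t
      + AA (n := n) F q t ^ 2 + (1 + ‖F q t‖ ^ 2 / (-t)) ^ 2 / t ^ 2))) hf2c (fun q hq => by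
    rw [hmz q hq]; ring)).2
  have hf3c : Continuous (fun q => mc Rc F q t ^ 2 * ((g1F n F q t + wF n F q t / (-t)
      + (wF n F q t / (-t)) ^ 2) / t ^ 2)) :=
    (hcm.pow 2).mul (((hcg1.add (hcw.div_const _)).add ((hcw.div_const _).pow 2)).div_const _)
  have hf3i := (hint (fun q => mc Rc F q t ^ 2 * ((g1F n F q t + wF n F q t / (-t)
      + (wF n F q t / (-t)) ^ 2) / t ^ 2)) hf3c (fun q hq => by
    rw [hmz q hq]; ring)).2
  -- the integrated inequality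
  have hI := int_comb hf0i hf1i hf2i hf3i η (C₁ / Rc + lam) (CR * (1 + 1 / lam))
    (fun q => hZ q lam hlam) hdi
  -- the bounds
  set P : ℝ := √(-t) ^ n / t ^ 2 with hP
  have ht2 : 0 < t ^ 2 := by
    have := ht0.ne
    positivity
  have hPpos : 0 ≤ P := by positivity
  have hb3 : ∫ q, mc Rc F q t ^ 2 * ((g1F n F q t + wF n F q t / (-t)
      + (wF n F q t / (-t)) ^ 2) / t ^ 2) ∂muM n F c χ t ≤ ε' * P := by
    refine int_le hf3c.aestronglyMeasurable (fun q => ?_) (by positivity) hI1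
    have h1 := (hwd' q).2.2.1
    have h2 := (hwd' q).2.2.2.1
    positivity
  have hb2 : ∫ q, mc Rc F q t ^ 2 * (ggF F q t * (g2F n F q t
      + AA (n := n) F q t ^ 2 + (1 + ‖F q t‖ ^ 2 / (-t)) ^ 2 / t ^ 2)) ∂muM n F c χ t
      ≤ (C + C') * P := by
    refine int_le hf2c.aestronglyMeasurable (fun q => ?_) (by positivity) ?_
    · have h1 := (hg2 q t ht0).1
      have h2 := (hpt q t ht0).2.2.2.2.2.2.2.2.1
      positivity
    · have hca : Continuous (fun q => mc Rc F q t ^ 2 * (ggF F q t * (g2F n F q t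
          + AA (n := n) F q t ^ 2))) :=
        (hcm.pow 2).mul (hcG.mul (hcg2.add (hcA.pow 2)))
      have hcb : Continuous (fun q => (1 + ‖F q t‖ ^ 2 / (-t)) ^ 2 * ggF F q t) :=
        ((continuous_const.add (hcx.div_const _)).pow 2).mul hcG
      have hpw : ∀ q, ENNReal.ofReal (mc Rc F q t ^ 2 * (ggF F q t * (g2F n F q t
          + AA (n := n) F q t ^ 2 + (1 + ‖F q t‖ ^ 2 / (-t)) ^ 2 / t ^ 2))) ≤
          ENNReal.ofReal (mc Rc F q t ^ 2 * (ggF F q t * (g2F n F q t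
            + AA (n := n) F q t ^ 2))) +
          ENNReal.ofReal (1 / t ^ 2) *
            ENNReal.ofReal ((1 + ‖F q t‖ ^ 2 / (-t)) ^ 2 * ggF F q t) := by
        intro q
        have h1 := (hg2 q t ht0).1
        have h2 := (hpt q t ht0).2.2.2.2.2.2.2.2.1
        rw [← ENNReal.ofReal_mul (by positivity), ← ENNReal.ofReal_add (by positivity)
          (by positivity)]
        apply ENNReal.ofReal_le_ofReal
        have h3 : mc Rc F q t ^ 2 ≤ 1 := pow_le_one₀ (hm0 q) (hm1 q)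
        have h4 : 0 ≤ 1 / t ^ 2 * ((1 + ‖F q t‖ ^ 2 / (-t)) ^ 2 * ggF F q t) := by positivity
        have h5 := mul_le_mul_of_nonneg_right h3 h4
        have e : mc Rc F q t ^ 2 * (ggF F q t * (g2F n F q t
          + AA (n := n) F q t ^ 2 + (1 + ‖F q t‖ ^ 2 / (-t)) ^ 2 / t ^ 2)) =
          mc Rc F q t ^ 2 * (ggF F q t * (g2F n F q t + AA (n := n) F q t ^ 2)) +
          mc Rc F q t ^ 2 * (1 / t ^ 2 * ((1 + ‖F q t‖ ^ 2 / (-t)) ^ 2 * ggF F q t)) := by
          ring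
        rw [e]
        linarith
      refine (lintegral_mono hpw).trans ?_
      have hma : Measurable (fun q => ENNReal.ofReal (mc Rc F q t ^ 2 * (ggF F q t *
          (g2F n F q t + AA (n := n) F q t ^ 2)))) :=
        ENNReal.measurable_ofReal.comp hca.measurable
      have hmb : Measurable (fun q => ENNReal.ofReal ((1 + ‖F q t‖ ^ 2 / (-t)) ^ 2 *
          ggF F q t)) := ENNReal.measurable_ofReal.comp hcb.measurable
      rw [lintegral_add_left hma, lintegral_const_mul _ hmb]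
      have h6 := hM2 t ht0
      unfold Li at h6 hI2
      refine (add_le_add hI2 (mul_le_mul_right h6 _)).trans ?_
      rw [← ENNReal.ofReal_mul (by positivity), ← ENNReal.ofReal_add (by positivity)
        (by positivity)]
      apply ENNReal.ofReal_le_ofReal
      rw [hP]
      exact le_of_eq (by ring)
  have hb0 : ∫ q, mc Rc F q t ^ 4 * (ggF F q t * i0F n F q t) ∂muM n F c χ t ≤ δ * P / η := by
    rw [le_div_iff₀ hη]
    have h1 : 0 ≤ C₁ / Rc + lam := by positivity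
    have h2 : 0 ≤ CR * (1 + 1 / lam) := by positivity
    have h3 := mul_le_mul_of_nonneg_left hb2 h1
    have h4 := mul_le_mul_of_nonneg_left hb3 h2
    have h5 : ((C₁ / Rc + lam) * (C + C') + CR * (1 + 1 / lam) * ε') * P ≤ δ * P :=
      mul_le_mul_of_nonneg_right (by linarith) hPpos
    linarith
  -- Chebyshev
  have hsub : {q : M | ‖F q t‖ ^ 2 ≤ R * -t ∧
      ε * Helper23.FN.DF n cc F q t ^ 2 ≤ Helper23.FN.QF n cc F q t ∧ ε ≤ -t * yF n F q t} ⊆
      {q : M | ENNReal.ofReal (A0 / t ^ 2) ≤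
        ENNReal.ofReal (mc Rc F q t ^ 4 * (ggF F q t * i0F n F q t))} := by
    rintro q ⟨hq1, hq2, hq3⟩
    apply ENNReal.ofReal_le_ofReal
    have hW := (Pool.Agent.Helper51.FN.hPOW Pool.Agent.Helper38.FN.hK8 n N hn M F hS.mcf q t
      ht0).2.1
    have h1 : κ ^ 2 / t ^ 2 ≤ i0F n F q t := by
      have h := key_i0 (X := AA (n := n) F q t) (Y := yF n F q t) (Z := ZF (n := n) F q t)
        (W := Helper23.FN.WF (n := n) F q t) (τ := -t) hcn hc₀ hε hτ (hYpos q)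
        (hpin q t ht0).2 hW hq2 hq3
      rw [← hκ, neg_sq] at h
      exact h
    have h2 : 1 / 4 * Real.exp (-(R' / 4)) ≤ mc Rc F q t ^ 4 * ggF F q t :=
      key_m hτ hR'1 hRR hRc2 hq1
    have h3 : 0 ≤ κ ^ 2 / t ^ 2 := by positivity
    calc A0 / t ^ 2 = 1 / 4 * Real.exp (-(R' / 4)) * (κ ^ 2 / t ^ 2) := by rw [hA0]; ring
      _ ≤ (mc Rc F q t ^ 4 * ggF F q t) * i0F n F q t :=
          mul_le_mul h2 h1 h3 (mul_nonneg (pow_nonneg (hm0 q) 4)
            (hpt q t ht0).2.2.2.2.2.2.2.2.1.le)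
      _ = mc Rc F q t ^ 4 * (ggF F q t * i0F n F q t) := by ring
  have hch := mul_meas_ge_le_lintegral₀ (μ := muM n F c χ t)
    (f := fun q => ENNReal.ofReal (mc Rc F q t ^ 4 * (ggF F q t * i0F n F q t)))
    (ENNReal.measurable_ofReal.comp hf0c.measurable).aemeasurable (ENNReal.ofReal (A0 / t ^ 2))
  rw [← ofReal_integral_eq_lintegral_ofReal hf0i (Eventually.of_forall hf0n)] at hch
  have hfin : ENNReal.ofReal (A0 / t ^ 2) * muM n F c χ t {q : M | ‖F q t‖ ^ 2 ≤ R * -t ∧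
      ε * Helper23.FN.DF n cc F q t ^ 2 ≤ Helper23.FN.QF n cc F q t ∧ ε ≤ -t * yF n F q t} ≤
      ENNReal.ofReal (A0 / t ^ 2) * ENNReal.ofReal (ε * √(-t) ^ n) := by
    refine ((mul_le_mul_right (measure_mono hsub) _).trans hch).trans ?_
    rw [← ENNReal.ofReal_mul (by positivity)]
    apply ENNReal.ofReal_le_ofReal
    refine hb0.trans (le_of_eq ?_)
    rw [hP, hδ]
    field_simp
  have ha0 : ENNReal.ofReal (A0 / t ^ 2) ≠ 0 := by
    rw [Ne, ENNReal.ofReal_eq_zero, not_le]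
    positivity
  exact (ENNReal.mul_le_mul_iff_right ha0 ENNReal.ofReal_ne_top).1 hfin

end Helper32.YT.SL2F
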